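import Pool.Agent.Q62.SP.Stm
import Pool.Agent.H459R3.NS.Evo
import Pool.Agent.H459R3.NS.Four

/-!
Job SP-33: the first derivatives are bounded on closed time intervals.
-/

open MeasureTheory Set Filter Topology
open scoped ContDiff
open H459R3.NS (V pd Per cube)

namespace Pool.Agent.Q37.SP

open Pool.Agent.Q62.SP

theorem exists_cube {F : Type*} {f : V → F} (hf : Per f) (x : V) : ∃ y ∈ cube, f y = f x := by
  refine ⟨fun i => Int.fract (x i), ?_, ?_⟩
  · exact ⟨fun i => Int.fract_nonneg _, fun i => (Int.fract_lt_one _).le⟩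
  · have h := hf.int (fun i => ⌊x i⌋) (fun i => Int.fract (x i))
    rw [← h]
    congr 1
    funext i
    simp

/-- The spatial derivative of a `C¹` function of space and time. -/
theorem pd_slice1 {T : ℝ} {f : ℝ → V → ℝ}
    (hf : ContDiffOn ℝ 1 (fun z : ℝ × V => f z.1 z.2) (Ico 0 T ×ˢ univ)) {t : ℝ}
    (ht : t ∈ Ico 0 T) (j : Fin 3) (x : V) :
    pd j (f t) x = fderivWithin ℝ (fun z : ℝ × V => f z.1 z.2) (Ico 0 T ×ˢ univ) (t, x)
      (0, Pi.single j 1) := by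
  have h1 : HasFDerivWithinAt (fun z : ℝ × V => f z.1 z.2)
      (fderivWithin ℝ (fun z : ℝ × V => f z.1 z.2) (Ico 0 T ×ˢ univ) (t, x))
      (Ico 0 T ×ˢ univ) (t, x) :=
    ((hf.differentiableOn one_ne_zero) (t, x) ⟨ht, mem_univ _⟩).hasFDerivWithinAt
  have h2 : HasFDerivAt (fun y : V => ((t, y) : ℝ × V)) (ContinuousLinearMap.inr ℝ ℝ V) x :=
    hasFDerivAt_prodMk_right t x
  have h3 : HasFDerivWithinAt (fun y : V => f t y)
      ((fderivWithin ℝ (fun z : ℝ × V => f z.1 z.2) (Ico 0 T ×ˢ univ) (t, x)).comp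
        (ContinuousLinearMap.inr ℝ ℝ V)) univ x :=
    HasFDerivWithinAt.comp (g := fun z : ℝ × V => f z.1 z.2) (t := Ico 0 T ×ˢ univ) x h1
      h2.hasFDerivWithinAt (fun y _ => ⟨ht, mem_univ _⟩)
  rw [hasFDerivWithinAt_univ] at h3
  unfold H459R3.NS.pd
  have h4 : fderiv ℝ (f t) x = _ := h3.fderiv
  rw [h4]
  simp

theorem t_BDG : S_BDG := by
  intro T b v hv hper hb
  have hvi : ∀ i : Fin 3, ContDiffOn ℝ 1 (fun z : ℝ × V => v z.1 z.2 i) (Ico 0 T ×ˢ univ) :=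
    fun i => contDiffOn_pi.1 hv i
  have hsub : Icc 0 b ×ˢ cube ⊆ Ico 0 T ×ˢ (univ : Set V) :=
    prod_mono (fun s hs => ⟨hs.1, hs.2.trans_lt hb⟩) (subset_univ _)
  have hK : IsCompact (Icc 0 b ×ˢ cube) := isCompact_Icc.prod isCompact_Icc
  have hB : ∀ i j : Fin 3, ∃ C, ∀ z ∈ Icc 0 b ×ˢ cube,
      ‖fderivWithin ℝ (fun z : ℝ × V => v z.1 z.2 i) (Ico 0 T ×ˢ univ) z (0, Pi.single j 1)‖ ≤ C := by
    intro i j
    apply hK.exists_bound_of_continuousOn
    exact (((hvi i).continuousOn_fderivWithin (H459R3.NS.uniqueDiff T) le_rfl).clm_apply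
      continuousOn_const).mono hsub
  choose C hC using hB
  refine ⟨∑ i, ∑ j, |C i j|, ?_⟩
  intro t ht x i j
  have htI : t ∈ Ico 0 T := ⟨ht.1, ht.2.trans_lt hb⟩
  have hp : Per (pd j (fun y => v t y i)) := by
    apply H459R3.NS.Per.pd
    intro k y
    show v t (y + Pi.single k 1) i = v t y i
    rw [hper t htI k y]
  obtain ⟨y, hy, hxy⟩ := exists_cube hp x
  rw [← hxy, pd_slice1 (f := fun t y => v t y i) (hvi i) htI j y]
  have h1 := hC i j (t, y) ⟨ht, hy⟩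
  rw [Real.norm_eq_abs] at h1
  refine h1.trans ((le_abs_self _).trans ?_)
  calc |C i j| ≤ ∑ j, |C i j| :=
        Finset.single_le_sum (f := fun j => |C i j|) (fun _ _ => abs_nonneg _) (Finset.mem_univ j)
    _ ≤ ∑ i, ∑ j, |C i j| :=
        Finset.single_le_sum (f := fun i => ∑ j, |C i j|)
          (fun _ _ => Finset.sum_nonneg fun _ _ => abs_nonneg _) (Finset.mem_univ i)

end Pool.Agent.Q37.SP
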