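import Pool.Agent.Q62.SP.Stm

/-!
Job SP-26: the operator on the velocities.
-/

open MeasureTheory Set Filter Topology
open scoped ContDiff
open H459R3.NS (V pd Per cube)

namespace Pool.Agent.Q37.SP

open Pool.Agent.Q62.SP

theorem t_BWW (hp1 : S_PHI) (hp2 : S_FFP) (hp3 : S_PRE) (hp4 : S_INT) : S_BWW := by
  intro N hN Z hZ s hs x
  obtain ⟨⟨hphic, -, -, hphi2, -, -⟩, -, -, hpsic, -, hpsi, hca, -⟩ := hp1
  obtain ⟨-, -, -, -, -, hFpos, -, -, -, hGG⟩ := hp2
  have hNpos : 0 < N := by linarith
  have hdd : ∀ n, ip (ww N Z s) (dd N n) = 0 := by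
    intro n
    unfold ip
    have : ∀ y : V, ∑ i, ww N Z s y i * dd N n y i = 0 := by
      intro y
      simp [Fin.sum_univ_three, ww, dd]
    simp_rw [this]
    simp
  have hth66 : ∀ n a b, (66 ≤ |a| ∨ 66 ≤ |b|) → th n a b = 0 := by
    intro n a b h
    have h2n : (1 : ℝ) ≤ 2 ^ n := one_le_pow₀ (by norm_num)
    unfold th
    rcases h with h | h
    · rw [hphi2, zero_mul]
      rw [abs_mul, abs_mul, abs_of_pos (by norm_num : (0 : ℝ) < 140),
        abs_of_pos (by positivity : (0 : ℝ) < 2 ^ n)]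
      nlinarith
    · have : psi (2 ^ n * b) = 0 := by
        by_contra hne
        obtain ⟨h1, h2⟩ := hpsi _ hne
        have h3 : |2 ^ n * b| = 2 ^ n * b := abs_of_nonneg (by linarith)
        have h4 : |2 ^ n * b| = 2 ^ n * |b| := by
          rw [abs_mul, abs_of_pos (by positivity : (0 : ℝ) < 2 ^ n)]
        rw [← h3, h4] at h2
        nlinarith
      rw [this, mul_zero]
  have hee : ∀ n, ip (ww N Z s) (ee N n) = ca * gg (za n s) / 4 ^ n / N ^ 2 := by
    intro n
    have h1 : ip (ww N Z s) (ee N n) = ∫ y in cube, (fun _ : ℝ => (1 : ℝ)) (y 2) *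
        (fun a b => WW Z a b s * th n a b) (xi N (y 0)) (xi N (y 1)) := by
      unfold ip
      congr 1
      funext y
      simp [Fin.sum_univ_three, ww, ee]
    rw [h1, hp4 N hN (fun a b => WW Z a b s * th n a b) ?_ ?_ (fun _ => 1) continuous_const,
      hp3 Z hZ n s hs]
    · simp
    · have hWc : Continuous (fun z : ℝ × ℝ => WW Z z.1 z.2 s) := by
        unfold WW
        have h2 : Continuous (fun z : ℝ × ℝ => Z z.1 z.2 s) :=
          hZ.smooth.continuous.comp (by fun_prop : Continuous (fun z : ℝ × ℝ => (z.1, z.2, s)))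
        exact continuous_const.sub (hphic.continuous.comp (by fun_prop))
      have htc : Continuous (fun z : ℝ × ℝ => th n z.1 z.2) := by
        unfold th
        exact (hphic.continuous.comp (by fun_prop)).mul (hpsic.continuous.comp (by fun_prop))
      exact hWc.mul htc
    · intro a b h
      show WW Z a b s * th n a b = 0
      rw [hth66 n a b h, mul_zero]
  have hterm : ∀ n, ka N n * ip (ww N Z s) (ee N n) = GG n s / N := by
    intro n
    rw [hee n, hGG n s hs]
    unfold ka
    have h4 : (4 : ℝ) ^ n ≠ 0 := by positivity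
    field_simp
  have hsum : ∀ i, BB N (ww N Z s) x i = ∑' n, GG n s / N * dd N n x i := by
    intro i
    unfold BB
    congr 1
    funext n
    rw [hdd n, zero_mul, add_zero, ← mul_assoc, hterm n]
  have hF : FF s ≠ 0 := (hFpos s).ne'
  have hgen : ∀ v : ℕ → ℝ, ∑' n, GG n s / N * v n = FF s / N * ((∑' n, GG n s * v n) / FF s) := by
    intro v
    have h1 : ∀ n, GG n s / N * v n = 1 / N * (GG n s * v n) := fun n => by ring
    simp_rw [h1]
    rw [tsum_mul_left]
    field_simp
  funext i
  rw [hsum i]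
  fin_cases i
  · show ∑' n, GG n s / N * VA n (xi N (x 0)) (xi N (x 1)) = _
    rw [hgen]
    rfl
  · show ∑' n, GG n s / N * VB n (xi N (x 0)) (xi N (x 1)) = _
    rw [hgen]
    rfl
  · show ∑' n, GG n s / N * 0 = 0
    simp

end Pool.Agent.Q37.SP
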