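import Pool.Agent.Q62.SP.Stm
import Pool.Agent.H459R3.NS.Phys

/-!
Job SP-29: integration by parts for a divergence-free field.
-/

open MeasureTheory Set Filter Topology
open scoped ContDiff
open H459R3.NS (V pd Per cube)

namespace Pool.Agent.Q37.SP

open Pool.Agent.Q62.SP

lemma c1_comp {u : V → V} (h : ContDiff ℝ 1 u) (i : Fin 3) : ContDiff ℝ 1 (fun y => u y i) :=
  contDiff_pi.1 h i

lemma pd_mul {f g : V → ℝ} (hf : ContDiff ℝ 1 f) (hg : ContDiff ℝ 1 g) (j : Fin 3) (x : V) :
    pd j (fun y => f y * g y) x = f x * pd j g x + g x * pd j f x := by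
  unfold H459R3.NS.pd
  rw [fderiv_fun_mul (hf.differentiable one_ne_zero x) (hg.differentiable one_ne_zero x)]
  simp [smul_eq_mul]

theorem t_DIV : S_DIV := by
  intro u q hu hdiv hq hper
  have h1 : ∀ x, ∑ i, u x i * pd i q x = ∑ i, pd i (fun y => u y i * q y) x := by
    intro x
    have h2 : ∀ i, pd i (fun y => u y i * q y) x = u x i * pd i q x + q x * pd i (fun y => u y i) x :=
      fun i => pd_mul (c1_comp hu.c1 i) hq i x
    simp_rw [h2]
    rw [Finset.sum_add_distrib, ← Finset.mul_sum, hdiv x, mul_zero, add_zero]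
  simp_rw [h1]
  rw [integral_finsetSum]
  · refine Finset.sum_eq_zero fun i _ => ?_
    refine H459R3.NS.integral_pd ((c1_comp hu.c1 i).mul hq) ?_ i
    intro j x
    show u (x + Pi.single j 1) i * q (x + Pi.single j 1) = u x i * q x
    rw [hu.per j x, hper j x]
  · intro i _
    have hc : Continuous (fun x => pd i (fun y => u y i * q y) x) :=
      ((((c1_comp hu.c1 i).mul hq)).continuous_fderiv one_ne_zero).clm_apply continuous_const
    exact H459R3.NS.integrableOn_cube hc

end Pool.Agent.Q37.SP
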