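import Pool.Agent.Q62.SP.Stm
import Pool.Agent.H459R3.NS.Evo

/-!
Job SP-31: conservation of energy.
-/

open MeasureTheory Set Filter Topology
open scoped ContDiff
open H459R3.NS (V pd Per cube)

namespace Pool.Agent.Q37.SP

open Pool.Agent.Q62.SP

lemma slice_c1 {T : ℝ} {v : ℝ → V → V}
    (h : ContDiffOn ℝ 1 (fun z : ℝ × V => v z.1 z.2) (Ico 0 T ×ˢ univ)) {t : ℝ}
    (ht : t ∈ Ico 0 T) : ContDiff ℝ 1 (v t) := by
  rw [← contDiffOn_univ]
  exact h.comp (contDiff_const.prodMk contDiff_id).contDiffOn (fun x _ => ⟨ht, mem_univ _⟩)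

lemma pd_sq {f : V → ℝ} (hf : ContDiff ℝ 1 f) (j : Fin 3) (x : V) :
    pd j (fun y => f y ^ 2) x = 2 * (f x * pd j f x) := by
  unfold H459R3.NS.pd
  have h : HasFDerivAt (fun y => f y ^ 2) ((2 * f x) • fderiv ℝ f x) x := by
    have h1 := ((hf.differentiable one_ne_zero x).hasFDerivAt).pow 2
    simpa using h1
  rw [h.fderiv]
  simp [mul_assoc]

lemma pd_add {f g : V → ℝ} (hf : ContDiff ℝ 1 f) (hg : ContDiff ℝ 1 g) (j : Fin 3) (x : V) :
    pd j (fun y => f y + g y) x = pd j f x + pd j g x := by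
  unfold H459R3.NS.pd
  rw [fderiv_fun_add (hf.differentiable one_ne_zero x) (hg.differentiable one_ne_zero x)]
  rfl

lemma pd_cmul {f : V → ℝ} (hf : ContDiff ℝ 1 f) (c : ℝ) (j : Fin 3) (x : V) :
    pd j (fun y => c * f y) x = c * pd j f x := by
  unfold H459R3.NS.pd
  rw [fderiv_const_mul (hf.differentiable one_ne_zero x)]
  rfl

theorem t_ENE (hp1 : S_DIV) (hp2 : S_DER) : S_ENE := by
  intro δ A hA T v p hs t ht
  obtain ⟨hc, hd⟩ := hp2 δ A hA T v hs.c1_v hs.per_v
  rcases eq_or_lt_of_le ht.1 with h0 | h0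
  · rw [← h0]
  have hzero : ∀ s ∈ Ioo 0 T,
      ∫ x in cube, ∑ i, deriv (fun r => v r x i) s * (v s x i + A (v s) x i) = 0 := by
    intro s hs'
    have hsI : s ∈ Ico 0 T := ⟨hs'.1.le, hs'.2⟩
    have hv : ContDiff ℝ 1 (v s) := slice_c1 hs.c1_v hsI
    have hvi : ∀ i, ContDiff ℝ 1 (fun y => v s y i) := fun i => contDiff_pi.1 hv i
    have hvC : C1P (v s) := ⟨hv, hs.per_v s hsI⟩
    have hAC : C1P (A (v s)) := hA.c1 _ hvC
    have hAi : ∀ i, ContDiff ℝ 1 (fun y => A (v s) y i) := fun i => contDiff_pi.1 hAC.c1 i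
    set q : V → ℝ := fun y => p s y + 1 / 2 * (v s y 0 ^ 2 + v s y 1 ^ 2 + v s y 2 ^ 2) with hq
    have hp1' : ContDiff ℝ 1 (p s) := hs.c1_p s hs'
    have hsq : ContDiff ℝ 1 (fun y => v s y 0 ^ 2 + v s y 1 ^ 2 + v s y 2 ^ 2) :=
      (((hvi 0).pow 2).add ((hvi 1).pow 2)).add ((hvi 2).pow 2)
    have hqc : ContDiff ℝ 1 q := hp1'.add (contDiff_const.mul hsq)
    have hqp : Per q := by
      intro i x
      simp only [hq]
      rw [hs.per_p s hs' i x, hs.per_v s hsI i x]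
    have hpq : ∀ i x, pd i q x = pd i (p s) x + ∑ j, v s x j * pd i (fun y => v s y j) x := by
      intro i x
      simp only [hq]
      rw [pd_add hp1' (contDiff_const.mul hsq), pd_cmul hsq, pd_add
        (((hvi 0).pow 2).add ((hvi 1).pow 2)) ((hvi 2).pow 2), pd_add ((hvi 0).pow 2)
        ((hvi 1).pow 2), pd_sq (hvi 0), pd_sq (hvi 1), pd_sq (hvi 2), Fin.sum_univ_three]
      ring
    have hkey : ∀ x, ∑ i, deriv (fun r => v r x i) s * (v s x i + A (v s) x i)
        = -∑ i, (v s x i + A (v s) x i) * pd i q x := by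
      intro x
      have h := hs.momentum s hs' x
      have e0 := h 0
      have e1 := h 1
      have e2 := h 2
      simp only [Fin.sum_univ_three, cross_apply, curl, hpq, Matrix.cons_val_zero,
        Matrix.cons_val_one, Matrix.cons_val] at e0 e1 e2 ⊢
      linear_combination (v s x 0 + A (v s) x 0) * e0 + (v s x 1 + A (v s) x 1) * e1 +
        (v s x 2 + A (v s) x 2) * e2
    simp_rw [hkey]
    rw [integral_neg, neg_eq_zero]
    have hu : C1P (fun x i => v s x i + A (v s) x i) := by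
      refine ⟨contDiff_pi.2 fun i => (hvi i).add (hAi i), ?_⟩
      intro i x
      funext j
      show v s (x + Pi.single i 1) j + A (v s) (x + Pi.single i 1) j = _
      rw [hvC.per i x, hAC.per i x]
    refine hp1 _ q hu ?_ hqc hqp
    intro x
    have h3 : ∀ i, pd i (fun y => v s y i + A (v s) y i) x
        = pd i (fun y => v s y i) x + pd i (fun y => A (v s) y i) x :=
      fun i => pd_add (hvi i) (hAi i) i x
    simp_rw [h3]
    rw [Finset.sum_add_distrib, hs.divfree s hsI x, hA.div _ hvC x, add_zero]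
  have hsub : Icc 0 t ⊆ Ico 0 T := fun s hs' => ⟨hs'.1, hs'.2.trans_lt ht.2⟩
  obtain ⟨c, hc1, hc2⟩ := exists_hasDerivAt_eq_slope
    (fun t => ip (v t) (v t) + ip (v t) (A (v t)))
    (fun s => 2 * ∫ x in cube, ∑ i, deriv (fun r => v r x i) s * (v s x i + A (v s) x i)) h0
    (hc.mono hsub) (fun s hs' => hd s ⟨hs'.1, hs'.2.trans ht.2⟩)
  rw [hzero c ⟨hc1.1, hc1.2.trans ht.2⟩, mul_zero] at hc2
  have h4 : t - 0 ≠ 0 := by rw [sub_zero]; exact h0.ne'
  rw [eq_comm, div_eq_zero_iff] at hc2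
  rcases hc2 with h5 | h5
  · linarith
  · exact absurd h5 h4

end Pool.Agent.Q37.SP
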