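import Pool.Agent.Q62.SP.Stm

/-!
Job SP-28: the gradient of the solution.
-/

open MeasureTheory Set Filter Topology
open scoped ContDiff
open H459R3.NS (V pd Per cube)

namespace Pool.Agent.Q37.SP

open Pool.Agent.Q62.SP

theorem t_GRD (hp1 : S_PHI) : S_GRD := by
  intro N hN Z hZ s hs hc
  obtain ⟨⟨-, -, hphi1, hphi2, -, -⟩, -⟩ := hp1
  set γ : ℝ → V := fun y => (![1 / 2, 0, 0] : V) + y • (Pi.single 1 1 : V) with hγ
  have hγ0 : ∀ y, γ y 0 = 1 / 2 := by
    intro y
    show (1 / 2 : ℝ) + y * (Pi.single 1 1 : V) 0 = 1 / 2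
    rw [Pi.single_eq_of_ne (by decide)]; ring
  have hγ1 : ∀ y, γ y 1 = y := by
    intro y
    show (0 : ℝ) + y * (Pi.single 1 1 : V) 1 = y
    rw [Pi.single_eq_same]; ring
  have hγd : ∀ y, HasDerivAt γ (Pi.single 1 1 : V) y := by
    intro y
    have h1 : HasDerivAt (fun y : ℝ => y • (Pi.single 1 1 : V)) ((1 : ℝ) • (Pi.single 1 1 : V)) y :=
      (hasDerivAt_id y).smul_const _
    rw [one_smul] at h1
    exact h1.const_add _
  set g : ℝ → ℝ := fun y => ww N Z s (γ y) 2 with hg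
  have hgd : ∀ y, HasDerivAt g (pd 1 (fun y => ww N Z s y 2) (γ y)) y := by
    intro y
    have h1 := ((hc.differentiable one_ne_zero) (γ y)).hasFDerivAt
    exact h1.comp_hasDerivAt y (hγd y)
  have hNpos : 0 < N := by linarith
  have hexp : 0 < Real.exp (-s) := Real.exp_pos _
  have hexp1 : Real.exp (-s) ≤ 1 := Real.exp_le_one_iff.2 (by linarith)
  set h : ℝ := 5 * Real.exp (-s) / N with hh
  have hpos : 0 < h := by positivity
  have hlt : h < 1 / 2 := by
    rw [hh, div_lt_iff₀ hNpos]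
    linarith
  have hee : Real.exp (-s) * Real.exp s = 1 := by rw [← Real.exp_add]; simp
  have hgv : ∀ y, g y = 1 - phi (2 * Z (xi N (1 / 2)) (xi N y) s / 5) := by
    intro y
    simp only [hg, ww, WW, hγ0, hγ1, Matrix.cons_val]
  have hfr : Int.fract (1 / 2 : ℝ) = 1 / 2 := Int.fract_eq_self.2 ⟨by norm_num, by norm_num⟩
  have hx0 : xi N (1 / 2) = 0 := by
    unfold xi
    rw [hfr]; ring
  have hx1 : xi N (1 / 2 + h) = 5 * Real.exp (-s) := by
    unfold xi
    rw [Int.fract_eq_self.2 ⟨by linarith, by linarith⟩, hh]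
    field_simp
    ring
  have hg0 : g (1 / 2) = 0 := by
    rw [hgv, hx0, hZ.near 0 0 s hs (by simp) (by simp)]
    simp only [zero_mul, mul_zero, zero_div]
    rw [hphi1 0 (by simp)]
    ring
  have hg1 : g (1 / 2 + h) = 1 := by
    have hb : |5 * Real.exp (-s)| = 5 * Real.exp (-s) := abs_of_pos (by positivity)
    rw [hgv, hx0, hx1, hZ.near 0 (5 * Real.exp (-s)) s hs (by rw [hb]; simp; positivity)
      (by rw [hb, mul_assoc, hee, mul_one])]
    rw [mul_assoc 5, hee, hphi2 _ (by norm_num)]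
    ring
  obtain ⟨c, -, hc2⟩ := exists_hasDerivAt_eq_slope g
    (fun y => pd 1 (fun y => ww N Z s y 2) (γ y)) (a := 1 / 2) (b := 1 / 2 + h) (by linarith)
    (fun y _ => (hgd y).continuousAt.continuousWithinAt) (fun y _ => hgd y)
  refine ⟨γ c, ?_⟩
  have h1 : pd 1 (fun y => ww N Z s y 2) (γ c) = N / 5 * Real.exp s := by
    have h2 := hc2
    rw [h2, hg0, hg1, hh]
    have h3 : Real.exp s = (Real.exp (-s))⁻¹ := by rw [Real.exp_neg, inv_inv]
    rw [h3]
    field_simp
    ring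
  rw [h1]
  exact le_abs_self _

end Pool.Agent.Q37.SP
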